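import Mathlib
import Pool.Agent.H956R2.HK.Kappa

set_option autoImplicit false

namespace Pool.Agent.Results.MP_f00780_ag.DescendingHilbertKunz

open Filter Topology IsLocalRing

universe u

/-- The ideal generated by the `q`-th powers of the elements of `I`
(the Frobenius power `I^[q]` when `q` is a power of the characteristic). -/
def frobeniusPower {R : Type u} [CommRing R] (I : Ideal R) (q : ℕ) : Ideal R :=
  Ideal.span {y | ∃ x ∈ I, y = x ^ q}

/-- The local ring `R` has Hilbert-Kunz multiplicity `a`, computed with the exponent `d`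
(in the theorem `d` is the Krull dimension of `R`): all lengths of `R / m^[p^e]` are finite and
`length (R / m^[p^e]) / p^(e d)` tends to `a`. -/
def HasHilbertKunzMultiplicity (p : ℕ) (R : Type u) [CommRing R] [IsLocalRing R] (d : ℕ)
    (a : ℝ) : Prop :=
  (∀ e : ℕ, Module.length R (R ⧸ frobeniusPower (maximalIdeal R) (p ^ e)) ≠ ⊤) ∧
  Tendsto (fun e : ℕ =>
    ((Module.length R (R ⧸ frobeniusPower (maximalIdeal R) (p ^ e))).toNat : ℝ) /
      (p : ℝ) ^ (e * d)) atTop (𝓝 a)

lemma frobeniusPower_eq {R : Type u} [CommRing R] (I : Ideal R) (q : ℕ) :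
    frobeniusPower I q = Pool.Agent.H956R2.HK.frobPow I q := by
  unfold frobeniusPower Pool.Agent.H956R2.HK.frobPow
  congr 1
  ext y
  constructor
  · rintro ⟨x, hx, rfl⟩
    exact ⟨x, hx, rfl⟩
  · rintro ⟨x, hx, rfl⟩
    exact ⟨x, hx, rfl⟩

/-- For every prime `p`, every finite field `F` of characteristic `p` and every `d ≥ 2` there is
a sequence of finitely generated `F`-algebras `A n` with maximal ideals `P n` such that the local
rings `(A n)_(P n)` have dimension `d`, are not regular, and their Hilbert-Kunz multiplicities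
`a n` are strictly decreasing, with limit `3 p^4`. -/
theorem result (p : ℕ) (hp : p.Prime) (F : Type u) [Field F] [Finite F] [CharP F p]
    (d : ℕ) (hd : 2 ≤ d) :
    ∃ (A : ℕ → Type u) (_ : ∀ n, CommRing (A n)) (_ : ∀ n, Algebra F (A n))
      (P : ∀ n, Ideal (A n)) (_ : ∀ n, (P n).IsMaximal) (a : ℕ → ℝ),
      (∀ n, Algebra.FiniteType F (A n)) ∧
      (∀ n, ringKrullDim (Localization.AtPrime (P n)) = d) ∧
      (∀ n, ¬ IsRegularLocalRing (Localization.AtPrime (P n))) ∧
      (∀ n, HasHilbertKunzMultiplicity p (Localization.AtPrime (P n)) d (a n)) ∧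
      StrictAnti a ∧ Tendsto a atTop (𝓝 (3 * (p : ℝ) ^ 4)) := by
  have hpf : Fact p.Prime := ⟨hp⟩
  obtain ⟨m, rfl⟩ : ∃ m, d = m + 2 := ⟨d - 2, by omega⟩
  obtain ⟨n, hn⟩ : ∃ n, p ^ 2 = n + 2 := by
    refine ⟨p ^ 2 - 2, ?_⟩
    have := hp.two_le
    have : 2 ≤ p ^ 2 := by nlinarith
    omega
  have hn1 : 1 ≤ n := by
    have := hp.two_le
    have : 4 ≤ p ^ 2 := by nlinarith
    omega
  have hq : ((n : ℝ) + 2) = (p : ℝ) ^ 2 := by exact_mod_cast hn.symm
  choose A hA1 hA2 P hP a h1 h2 h3 h4 h5 h6 using fun s : ℕ =>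
    Pool.Agent.H956R2.HK.main_F F (p := p) hn hn1 s m
  have hlim0 : (3 : ℝ) * ((n : ℝ) + 2) ^ 2 = 3 * (p : ℝ) ^ 4 := by
    rw [hq]
    ring
  have hlim : Tendsto a atTop (𝓝 (3 * (p : ℝ) ^ 4)) := by
    rw [← hlim0]
    have hup : Tendsto (fun s : ℕ => 3 * ((n : ℝ) + 2) ^ 2 +
        4 * ((n : ℝ) + 2) ^ 2 / ((n : ℝ) + 2) ^ s) atTop (𝓝 (3 * ((n : ℝ) + 2) ^ 2)) := by
      have hr : Tendsto (fun s : ℕ => (1 / ((n : ℝ) + 2)) ^ s) atTop (𝓝 0) := by
        apply tendsto_pow_atTop_nhds_zero_of_lt_one (by positivity)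
        rw [div_lt_one (by positivity)]
        have : (0 : ℝ) ≤ n := by positivity
        linarith
      have h := (hr.const_mul (4 * ((n : ℝ) + 2) ^ 2)).const_add (3 * ((n : ℝ) + 2) ^ 2)
      rw [mul_zero, add_zero] at h
      refine h.congr fun s => ?_
      rw [one_div, inv_pow, div_eq_mul_inv]
    exact tendsto_of_tendsto_of_tendsto_of_le_of_le tendsto_const_nhds hup
      (fun s => (h5 s).le) h6
  obtain ⟨g, hg1, hg2⟩ := Pool.Agent.H956R2.HK.exists_antitone
    (fun s => by rw [← hlim0]; exact h5 s) hlim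
  refine ⟨fun i => A (g i), fun i => hA1 (g i), fun i => hA2 (g i), fun i => P (g i),
    fun i => hP (g i), a ∘ g, fun i => h1 (g i), fun i => h2 (g i), fun i => h3 (g i),
    fun i => ?_, hg2, hlim.comp hg1.tendsto_atTop⟩
  have h := h4 (g i)
  refine ⟨fun e => ?_, ?_⟩
  · rw [frobeniusPower_eq]
    exact h.1 e
  · refine h.2.congr fun e => ?_
    rw [frobeniusPower_eq]

end Pool.Agent.Results.MP_f00780_ag.DescendingHilbertKunz
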